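import Pool.Agent.U372.SK.Comp

set_option autoImplicit false

namespace Pool.Agent.U372.SK

/-- the sum of the codes of all tableaux -/
def qPol : Pol := sumPol (tabs.map fun T => [((T.map fun a => pr (a / 2)).prod, (1 : ℤ))])

/-- the product with the Vandermonde product -/
def rhs : Pol := gMul [0, 0, 0, 0, 0] qPol pairs5

set_option maxRecDepth 100000 in
theorem check : (lhs == rhs) = true := by decide +kernel

theorem lhs_eq_rhs : lhs = rhs := by
  have h := check
  rwa [beq_iff_eq] at h

end Pool.Agent.U372.SK
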