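import Pool.Agent.U372.SK.Defs

set_option autoImplicit false

open Finset

namespace Pool.Agent.U372.SK

/-- the factor of a pair of variables after multiplication by `x_i - x_j` -/
noncomputable def gR {n : ℕ} (a b : ℕ) (i j : Fin n) : R n :=
  (if a < b then MvPolynomial.C Polynomial.X else 1) * MvPolynomial.X i -
    (if b < a then MvPolynomial.C Polynomial.X else 1) * MvPolynomial.X j

noncomputable def GR (n : ℕ) (α : Fin n → ℕ) : R n :=
  (∏ i, MvPolynomial.X i ^ α i) * ∏ i, ∏ j ∈ Ioi i, gR (α i) (α j) i j

noncomputable def VR (n : ℕ) : R n := ∏ i : Fin n, ∏ j ∈ Ioi i, (MvPolynomial.X i - MvPolynomial.X j)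

noncomputable def NR (n : ℕ) {m : ℕ} (μ : Nat.Partition m) : R n := ∑ α ∈ arrangements n μ, GR n α

theorem alg_inj (n : ℕ) : Function.Injective (algebraMap (R n) (F n)) :=
  IsFractionRing.injective (R n) (F n)

theorem x_sub_ne {n : ℕ} {i j : Fin n} (h : i ≠ j) : x n i - x n j ≠ 0 := by
  intro h0
  rw [sub_eq_zero] at h0
  have h1 := alg_inj n h0
  exact h (MvPolynomial.X_injective h1)

theorem VR_ne (n : ℕ) : VR n ≠ 0 := by
  unfold VR
  rw [prod_ne_zero_iff]
  intro i _
  rw [prod_ne_zero_iff]
  intro j hj
  rw [mem_Ioi] at hj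
  intro h0
  rw [sub_eq_zero] at h0
  exact hj.ne (MvPolynomial.X_injective h0)

theorem pair_clear {n : ℕ} (α : Fin n → ℕ) {i j : Fin n} (hij : i < j) :
    (x n i - x n j) *
      ((if α i < α j then (x n j - coef n Polynomial.X * x n i) / (x n j - x n i) else 1) *
        (if α j < α i then (x n i - coef n Polynomial.X * x n j) / (x n i - x n j) else 1)) =
      algebraMap (R n) (F n) (gR (α i) (α j) i j) := by
  have h1 : x n i - x n j ≠ 0 := x_sub_ne hij.ne
  have h2 : x n j - x n i ≠ 0 := x_sub_ne hij.ne'
  unfold gR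
  rw [map_sub, map_mul, map_mul]
  change _ = _ * x n i - _ * x n j
  rcases lt_trichotomy (α i) (α j) with h | h | h
  · rw [if_pos h, if_neg (by omega), if_pos h, if_neg (by omega), mul_one, map_one]
    change _ = coef n Polynomial.X * _ - _
    field_simp
    ring
  · rw [if_neg (by omega), if_neg (by omega), if_neg (by omega), if_neg (by omega)]
    simp
  · rw [if_neg (by omega), if_pos h, if_neg (by omega), if_pos h, one_mul, map_one]
    change _ = _ - coef n Polynomial.X * _
    field_simp
    

theorem HL_clear (n : ℕ) {m : ℕ} (μ : Nat.Partition m) :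
    algebraMap (R n) (F n) (VR n) * HL n μ = algebraMap (R n) (F n) (NR n μ) := by
  unfold HL NR
  rw [mul_sum, map_sum]
  refine sum_congr rfl fun α _ => ?_
  unfold GR VR
  rw [map_mul, map_prod, map_prod, map_prod]
  have h1 : ∏ i, ∏ j, (if α j < α i then
      (x n i - coef n Polynomial.X * x n j) / (x n i - x n j) else 1) =
      ∏ i : Fin n, ∏ j ∈ Ioi i,
      ((if α i < α j then (x n j - coef n Polynomial.X * x n i) / (x n j - x n i) else 1) *
        (if α j < α i then (x n i - coef n Polynomial.X * x n j) / (x n i - x n j) else 1)) := by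
    have h := Finset.prod_prod_Ioi_mul_eq_prod_prod_off_diag (fun i j : Fin n =>
      if α i < α j then (x n j - coef n Polynomial.X * x n i) / (x n j - x n i) else 1)
    have h' : ∏ i : Fin n, ∏ j ∈ Ioi i,
      ((if α i < α j then (x n j - coef n Polynomial.X * x n i) / (x n j - x n i) else 1) *
        (if α j < α i then (x n i - coef n Polynomial.X * x n j) / (x n i - x n j) else 1)) =
      ∏ i : Fin n, ∏ j ∈ Ioi i,
      ((if α j < α i then (x n i - coef n Polynomial.X * x n j) / (x n i - x n j) else 1) *
      (if α i < α j then (x n j - coef n Polynomial.X * x n i) / (x n j - x n i) else 1)) :=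
      prod_congr rfl fun i _ => prod_congr rfl fun j _ => mul_comm _ _
    rw [h', h]
    refine prod_congr rfl fun i _ => ?_
    rw [← Finset.prod_compl_mul_prod ({i}ᶜ : Finset (Fin n)), compl_compl, prod_singleton]
    simp
  have h2 : ∏ i : Fin n, x n i ^ α i =
      ∏ i : Fin n, algebraMap (R n) (F n) (MvPolynomial.X i ^ α i) := by
    refine prod_congr rfl fun i _ => ?_
    rw [map_pow]
    rfl
  rw [h1, h2, mul_left_comm]
  congr 1
  rw [← prod_mul_distrib]
  refine prod_congr rfl fun i _ => ?_
  rw [map_prod, map_prod, ← prod_mul_distrib]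
  refine prod_congr rfl fun j hj => ?_
  rw [mem_Ioi] at hj
  rw [map_sub]
  exact pair_clear α hj

/-- the defining identity, cleared of denominators -/
theorem sum_clear {n : ℕ} (K : Nat.Partition n → Polynomial ℤ) (S : F n) :
    S = ∑ μ : Nat.Partition n, coef n (K μ) * HL n μ ↔
      algebraMap (R n) (F n) (VR n) * S =
        algebraMap (R n) (F n) (∑ μ : Nat.Partition n, MvPolynomial.C (K μ) * NR n μ) := by
  have h : algebraMap (R n) (F n) (∑ μ : Nat.Partition n, MvPolynomial.C (K μ) * NR n μ) =
      algebraMap (R n) (F n) (VR n) * ∑ μ : Nat.Partition n, coef n (K μ) * HL n μ := by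
    rw [map_sum, mul_sum]
    refine sum_congr rfl fun μ _ => ?_
    rw [map_mul, ← HL_clear]
    unfold coef
    ring
  rw [h]
  constructor
  · intro h1
    rw [← h1]
  · intro h1
    refine mul_left_cancel₀ ?_ h1
    intro h0
    exact VR_ne n (alg_inj n (h0.trans (map_zero _).symm))

end Pool.Agent.U372.SK
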