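import Pool.Agent.U372.SK.Pol

set_option autoImplicit false

namespace Pool.Agent.U372.SK

/-- code of `x_i` -/
def pr : ℕ → ℕ
  | 0 => 3
  | 1 => 5
  | 2 => 7
  | 3 => 11
  | _ => 13

/-- code of `x^α` -/
def monCode : ℕ → List ℕ → ℕ
  | _, [] => 1
  | i, a :: l => pr i ^ a * monCode (i + 1) l

/-- the pairs `i < j` -/
def pairs5 : List (ℕ × ℕ) :=
  [(0, 1), (0, 2), (0, 3), (0, 4), (1, 2), (1, 3), (1, 4), (2, 3), (2, 4), (3, 4)]

/-- `∏_{i<j} g(α_i, α_j)` times `p` -/
def gMul (α : List ℕ) (p : Pol) : List (ℕ × ℕ) → Pol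
  | [] => p
  | ij :: l =>
    let a := α.getD ij.1 0
    let b := α.getD ij.2 0
    let k := if a < b then 2 * pr ij.1 else pr ij.1
    let m := if b < a then 2 * pr ij.2 else pr ij.2
    mulBin (gMul α p l) k m

def gPol (α : List ℕ) : Pol := gMul α [(monCode 0 α, 1)] pairs5

/-- all words of length `n` with sum `m` and letters at most `c` -/
def words : ℕ → ℕ → List (List ℕ)
  | 0, m => if m = 0 then [[]] else []
  | n + 1, m => (List.range (m + 1)).flatMap fun a => (words n (m - a)).map fun l => a :: l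

def arrs (mu : List ℕ) : List (List ℕ) :=
  (words 5 5).filter fun α => (α.filter (· ≠ 0)).isPerm mu

def sPol (mu : List ℕ) : Pol := sumPol ((arrs mu).map gPol)

def k32 : Pol := [(1, 4)]
def k311 : Pol := [(1, 4), (2, 4)]
def k221 : Pol := [(1, 4), (2, 8), (4, 4)]
def k2111 : Pol := [(2, 8), (4, 12), (8, 8), (16, 4)]
def k11111 : Pol := [(4, 4), (8, 8), (16, 12), (32, 16), (64, 12), (128, 8), (256, 4)]

def lhs : Pol := sumPol [mulPol (sPol [3, 2]) k32, mulPol (sPol [3, 1, 1]) k311,
  mulPol (sPol [2, 2, 1]) k221, mulPol (sPol [2, 1, 1, 1]) k2111, mulPol (sPol [1, 1, 1, 1, 1]) k11111]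

/-- letters `0, …, 9`: `2k` is `(k+1)'`, `2k+1` is `k+1` -/
def okRow (a b : ℕ) : Bool := decide (a < b) || (decide (a = b) && decide (a % 2 = 1))
def okCol (a b : ℕ) : Bool := decide (a < b) || (decide (a = b) && decide (a % 2 = 0))

def tabs : List (List ℕ) :=
  (List.range 10).flatMap fun a => (List.range 10).flatMap fun b => if okRow a b then
    (List.range 10).flatMap fun c => if okRow b c then
      (List.range 10).flatMap fun d => if okCol b d then
        (List.range 10).flatMap fun e => if okRow d e && okCol c e then [[a, b, c, d, e]] else []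
      else []
    else []
  else []

end Pool.Agent.U372.SK
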