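import Mathlib

/-! Hall-Littlewood polynomials and Schur Q-functions: definitions. -/

set_option autoImplicit false

open Finset

namespace Pool.Agent.U372.SK

/-- The ring `ℤ[t][x_1, …, x_n]`. -/
abbrev R (n : ℕ) := MvPolynomial (Fin n) (Polynomial ℤ)

/-- The field of rational functions in `t, x_1, …, x_n`. -/
abbrev F (n : ℕ) := FractionRing (R n)

/-- The variable `x_i`. -/
noncomputable def x (n : ℕ) (i : Fin n) : F n := algebraMap (R n) (F n) (MvPolynomial.X i)

/-- A polynomial in `t`, as an element of the field. -/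
noncomputable def coef (n : ℕ) (K : Polynomial ℤ) : F n :=
  algebraMap (R n) (F n) (MvPolynomial.C K)

/-- The exponent vectors `(α_1, …, α_n)` which are rearrangements of the partition `μ` (filled up
with zeros); there is none when `μ` has more than `n` parts. -/
def arrangements (n : ℕ) {m : ℕ} (μ : Nat.Partition m) : Finset (Fin n → ℕ) :=
  (Finset.Nat.antidiagonalTuple n m).filter
    (fun α => ((Finset.univ : Finset (Fin n)).val.map α).filter (fun k => k ≠ 0) = μ.parts)

/-- The Hall-Littlewood polynomial `P_μ(x_1, …, x_n; t)`, by Macdonald's formula (III.2.2): the sum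
over the distinct rearrangements `α` of `μ` of
`x^α ∏_{α_i > α_j} (x_i - t x_j) / (x_i - x_j)`. -/
noncomputable def HL (n : ℕ) {m : ℕ} (μ : Nat.Partition m) : F n :=
  ∑ α ∈ arrangements n μ, (∏ i, x n i ^ α i) *
    ∏ i, ∏ j, if α j < α i then
      (x n i - coef n Polynomial.X * x n j) / (x n i - x n j) else 1

/-- Strict partitions are strictly decreasing lists of positive integers. -/
def IsStrict (ξ : List ℕ) : Prop := ξ.Pairwise (· > ·) ∧ ∀ k ∈ ξ, 0 < k

/-- The cells of the shifted diagram of `ξ`: `⟨i, j⟩` is the `j`-th cell of the `i`-th row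
(everything is numbered from zero). -/
abbrev Cell (ξ : List ℕ) := (i : Fin ξ.length) × Fin (ξ.get i)

/-- The row of a cell. -/
def row {ξ : List ℕ} (c : Cell ξ) : ℕ := c.1

/-- The column of a cell: the `i`-th row starts in column `i`. -/
def col {ξ : List ℕ} (c : Cell ξ) : ℕ := (c.1 : ℕ) + c.2

/-- The letters `k'` and `k` are the pairs `(k, false)` and `(k, true)`; `pos` is the position in
the alphabet `1' < 1 < 2' < 2 < ⋯`. -/
def pos {n : ℕ} (a : Fin n × Bool) : ℕ := 2 * (a.1 : ℕ) + (if a.2 = true then 1 else 0)

/-- Marked shifted tableaux: weakly increasing in rows and columns, no unprimed letter repeats in a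
column and no primed letter repeats in a row. -/
structure IsMarkedShifted {ξ : List ℕ} {n : ℕ} (T : Cell ξ → Fin n × Bool) : Prop where
  rows : ∀ c d : Cell ξ, row c = row d → col c < col d →
    pos (T c) ≤ pos (T d) ∧ (T c = T d → (T c).2 = true)
  cols : ∀ c d : Cell ξ, col c = col d → row c < row d →
    pos (T c) ≤ pos (T d) ∧ (T c = T d → (T c).2 = false)

open Classical in
/-- Schur's function `Q_ξ(x_1, …, x_n)`, the sum over the marked shifted tableaux `T` of shape `ξ`
in the letters `1', 1, …, n', n` of the products of the variables `x_k` over the entries `k'`, `k`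
of `T`. -/
noncomputable def Q (n : ℕ) (ξ : List ℕ) : F n :=
  ∑ T ∈ (Finset.univ : Finset (Cell ξ → Fin n × Bool)).filter IsMarkedShifted,
    ∏ c, x n (T c).1

/-- `K μ`, `μ ⊢ n`, are the coefficients in the expansion of `Q_ξ` in the functions `P_μ(x;t)`;
here `n = |ξ|`. Since `Q_ξ` and `P_μ`, `μ ⊢ n`, are symmetric functions of degree `n`, the identity
holds if and only if it holds in `n` variables. -/
def IsSpinKostka (n : ℕ) (ξ : List ℕ) (K : Nat.Partition n → Polynomial ℤ) : Prop :=
  IsStrict ξ ∧ ξ.sum = n ∧ Q n ξ = ∑ μ : Nat.Partition n, coef n (K μ) * HL n μ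

/-- `t^m K(1/t) = K(t)` for some integer `m`. -/
def IsPalindromic (K : Polynomial ℤ) : Prop :=
  ∃ m : ℤ, LaurentPolynomial.T m * LaurentPolynomial.invert (Polynomial.toLaurent K) =
    Polynomial.toLaurent K

end Pool.Agent.U372.SK
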