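import Pool.Agent.U372.SK.Clear

set_option autoImplicit false

open Finset

namespace Pool.Agent.U372.SK

theorem ofFn_getD (l : List ℕ) : ∀ n : ℕ, l.length ≤ n →
    List.ofFn (fun i : Fin n => l.getD (i : ℕ) 0) = l ++ List.replicate (n - l.length) 0 := by
  intro n h
  apply List.ext_getElem
  · simp [h]
  · intro i h1 h2
    rw [List.getElem_ofFn, List.getElem_append]
    split_ifs with h3
    · simp [h3]
    · simp only [List.getElem_replicate]
      rw [List.getD_eq_getElem?_getD, List.getElem?_eq_none (by omega)]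
      rfl

theorem arr_nonempty (n : ℕ) (μ : Nat.Partition n) : (arrangements n μ).Nonempty := by
  classical
  set l := μ.parts.toList with hl
  have hlen : l.length ≤ n := by
    have h1 : l.length = Multiset.card μ.parts := by simp [hl]
    rw [h1]
    have h2 : Multiset.card μ.parts • 1 ≤ μ.parts.sum :=
      Multiset.card_nsmul_le_sum (fun x hx => μ.parts_pos hx)
    rw [μ.parts_sum] at h2
    simpa using h2
  have hcoe : ((Finset.univ : Finset (Fin n)).val.map (fun i : Fin n => l.getD (i : ℕ) 0)) =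
      ((l ++ List.replicate (n - l.length) 0 : List ℕ) : Multiset ℕ) := by
    rw [← ofFn_getD l n hlen]
    rw [Fin.univ_val_map]
  refine ⟨fun i => l.getD (i : ℕ) 0, ?_⟩
  unfold arrangements
  rw [mem_filter, Finset.Nat.mem_antidiagonalTuple]
  constructor
  · have h1 : ∑ i : Fin n, l.getD (i : ℕ) 0 =
        ((Finset.univ : Finset (Fin n)).val.map (fun i : Fin n => l.getD (i : ℕ) 0)).sum := rfl
    rw [h1, hcoe, Multiset.sum_coe, List.sum_append, List.sum_replicate]
    have h2 : l.sum = μ.parts.sum := by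
      rw [← Multiset.sum_coe, hl, Multiset.coe_toList]
    rw [h2, μ.parts_sum]
    simp
  · rw [hcoe, Multiset.filter_coe, List.filter_append]
    have h3 : (List.replicate (n - l.length) 0).filter (fun k => decide (k ≠ 0)) = [] := by
      rw [List.filter_eq_nil_iff]
      intro a ha
      rw [List.eq_of_mem_replicate ha]
      simp
    rw [h3, List.append_nil]
    have h4 : l.filter (fun k => decide (k ≠ 0)) = l := by
      rw [List.filter_eq_self]
      intro a ha
      have : 0 < a := μ.parts_pos (by rwa [hl, Multiset.mem_toList] at ha)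
      simp; omega
    rw [h4, hl, Multiset.coe_toList]

theorem arr_disjoint {n m : ℕ} {μ ν : Nat.Partition m} {α : Fin n → ℕ} (h1 : α ∈ arrangements n μ)
    (h2 : α ∈ arrangements n ν) : μ = ν := by
  unfold arrangements at h1 h2
  rw [mem_filter] at h1 h2
  apply Nat.Partition.ext
  rw [← h1.2, ← h2.2]

/-- evaluation at `t = 1` -/
noncomputable def phi (n : ℕ) : R n →+* MvPolynomial (Fin n) ℤ :=
  MvPolynomial.map (Polynomial.evalRingHom 1)

theorem phi_gR {n : ℕ} (a b : ℕ) (i j : Fin n) :
    phi n (gR a b i j) = MvPolynomial.X i - MvPolynomial.X j := by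
  unfold gR phi
  rw [map_sub, map_mul, map_mul]
  have h : ∀ p : Prop, [Decidable p] → MvPolynomial.map (Polynomial.evalRingHom 1)
      (if p then MvPolynomial.C Polynomial.X else 1 : R n) = 1 := by
    intro p _
    split_ifs
    · simp
    · simp
  rw [h, h]
  simp

theorem phi_NR {n m : ℕ} (μ : Nat.Partition m) :
    phi n (NR n μ) = (∑ α ∈ arrangements n μ, ∏ i, MvPolynomial.X i ^ α i) *
      ∏ i : Fin n, ∏ j ∈ Ioi i, (MvPolynomial.X i - MvPolynomial.X j) := by
  unfold NR GR
  rw [map_sum, sum_mul]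
  refine sum_congr rfl fun α _ => ?_
  rw [map_mul, map_prod, map_prod]
  congr 1
  · refine prod_congr rfl fun i _ => ?_
    unfold phi
    simp
  · refine prod_congr rfl fun i _ => ?_
    rw [map_prod]
    exact prod_congr rfl fun j _ => phi_gR _ _ _ _

theorem VZ_ne (n : ℕ) : (∏ i : Fin n, ∏ j ∈ Ioi i,
    (MvPolynomial.X i - MvPolynomial.X j : MvPolynomial (Fin n) ℤ)) ≠ 0 := by
  rw [prod_ne_zero_iff]
  intro i _
  rw [prod_ne_zero_iff]
  intro j hj
  rw [mem_Ioi] at hj
  intro h0
  rw [sub_eq_zero] at h0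
  exact hj.ne (MvPolynomial.X_injective h0)

theorem eval_one {n : ℕ} (D : Nat.Partition n → Polynomial ℤ)
    (h : ∑ μ : Nat.Partition n, MvPolynomial.C (D μ) * NR n μ = 0) (μ : Nat.Partition n) :
    (D μ).eval 1 = 0 := by
  classical
  have h1 := congrArg (phi n) h
  rw [map_sum, map_zero] at h1
  simp only [map_mul, phi_NR] at h1
  have h2 : ∑ ν : Nat.Partition n, MvPolynomial.C ((D ν).eval 1) *
      (∑ α ∈ arrangements n ν, ∏ i, MvPolynomial.X i ^ α i) = (0 : MvPolynomial (Fin n) ℤ) := by
    refine mul_right_cancel₀ (VZ_ne n) ?_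
    rw [zero_mul, sum_mul, ← h1]
    refine sum_congr rfl fun ν _ => ?_
    rw [mul_assoc]
    congr 1
    unfold phi
    simp
  obtain ⟨α0, hα0⟩ := arr_nonempty n μ
  have h3 := congrArg (MvPolynomial.coeff (Finsupp.equivFunOnFinite.symm α0)) h2
  rw [MvPolynomial.coeff_sum, MvPolynomial.coeff_zero] at h3
  have h4 : ∀ α : Fin n → ℕ, (∏ i, MvPolynomial.X i ^ α i : MvPolynomial (Fin n) ℤ) =
      MvPolynomial.monomial (Finsupp.equivFunOnFinite.symm α) 1 := by
    intro α
    rw [MvPolynomial.monomial_eq, Finsupp.prod_fintype]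
    · simp
    · intro i; simp
  have h5 : ∀ ν : Nat.Partition n, MvPolynomial.coeff (Finsupp.equivFunOnFinite.symm α0)
      (MvPolynomial.C ((D ν).eval 1) * (∑ α ∈ arrangements n ν, ∏ i, MvPolynomial.X i ^ α i)) =
      if ν = μ then (D ν).eval 1 else 0 := by
    intro ν
    rw [MvPolynomial.coeff_C_mul, MvPolynomial.coeff_sum]
    simp only [h4, MvPolynomial.coeff_monomial]
    split_ifs with h6
    · subst h6
      rw [sum_eq_single α0]
      · simp
      · intro β _ hβ
        rw [if_neg]
        intro h7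
        exact hβ (Finsupp.equivFunOnFinite.symm.injective h7)
      · intro h7
        exact absurd hα0 h7
    · rw [sum_eq_zero, mul_zero]
      intro β hβ
      rw [if_neg]
      intro h7
      have h8 := Finsupp.equivFunOnFinite.symm.injective h7
      rw [h8] at hβ
      exact h6 (arr_disjoint hβ hα0)
  simp only [h5] at h3
  simpa using h3

theorem pow_dvd (k : ℕ) {n : ℕ} : ∀ (D : Nat.Partition n → Polynomial ℤ)
    (_ : ∑ μ : Nat.Partition n, MvPolynomial.C (D μ) * NR n μ = 0) (μ : Nat.Partition n),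
    (Polynomial.X - 1 : Polynomial ℤ) ^ k ∣ D μ := by
  induction k with
  | zero => intro D _ μ; simp
  | succ k ih =>
    intro D h μ
    have h1 : ∀ ν, ∃ E : Polynomial ℤ, D ν = (Polynomial.X - 1) * E := by
      intro ν
      have h2 := eval_one D h ν
      have h3 : (Polynomial.X - Polynomial.C (1 : ℤ)) ∣ D ν := Polynomial.dvd_iff_isRoot.2 h2
      rw [Polynomial.C_1] at h3
      exact h3
    choose E hE using h1
    have h4 : ∑ ν : Nat.Partition n, MvPolynomial.C (E ν) * NR n ν = 0 := by
      have h5 : (MvPolynomial.C (Polynomial.X - 1) : R n) *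
          ∑ ν : Nat.Partition n, MvPolynomial.C (E ν) * NR n ν = 0 := by
        rw [mul_sum, ← h]
        refine sum_congr rfl fun ν _ => ?_
        rw [hE ν, map_mul, mul_assoc]
      rcases mul_eq_zero.1 h5 with h6 | h6
      · exfalso
        rw [MvPolynomial.C_eq_zero] at h6
        have : (Polynomial.X - Polynomial.C (1 : ℤ)) ≠ 0 := Polynomial.X_sub_C_ne_zero 1
        rw [Polynomial.C_1] at this
        exact this h6
      · exact h6
    obtain ⟨G, hG⟩ := ih E h4 μ
    exact ⟨G, by rw [hE μ, hG]; ring⟩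

theorem indep {n : ℕ} (D : Nat.Partition n → Polynomial ℤ)
    (h : ∑ μ : Nat.Partition n, MvPolynomial.C (D μ) * NR n μ = 0) (μ : Nat.Partition n) :
    D μ = 0 := by
  by_contra hne
  have h1 := pow_dvd ((D μ).natDegree + 1) D h μ
  have h2 := Polynomial.natDegree_le_of_dvd h1 hne
  have h3 : (Polynomial.X - 1 : Polynomial ℤ) = Polynomial.X - Polynomial.C 1 := by simp
  rw [h3, (Polynomial.monic_X_sub_C (1 : ℤ)).natDegree_pow, Polynomial.natDegree_X_sub_C] at h2
  omega

theorem kostka_unique {n : ℕ} {ξ : List ℕ} {K K' : Nat.Partition n → Polynomial ℤ}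
    (h : IsSpinKostka n ξ K) (h' : IsSpinKostka n ξ K') : K = K' := by
  have h1 := (sum_clear K _).1 h.2.2
  have h2 := (sum_clear K' _).1 h'.2.2
  have h3 := alg_inj n (h1.symm.trans h2)
  funext μ
  have h4 : ∑ μ : Nat.Partition n, MvPolynomial.C ((K - K') μ) * NR n μ = 0 := by
    have : ∀ μ : Nat.Partition n, MvPolynomial.C ((K - K') μ) * NR n μ =
        MvPolynomial.C (K μ) * NR n μ - MvPolynomial.C (K' μ) * NR n μ := by
      intro μ
      rw [Pi.sub_apply, map_sub, sub_mul]
    simp only [this]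
    rw [sum_sub_distrib, h3, sub_self]
  have h5 := indep (K - K') h4 μ
  exact sub_eq_zero.1 h5

end Pool.Agent.U372.SK
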