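import Pool.Agent.U372.SK.Tab
import Pool.Agent.U372.SK.Uniq

set_option autoImplicit false

open Finset

namespace Pool.Agent.U372.SK

open Polynomial in
/-- the row of coefficients of `Q_(3,2)` -/
noncomputable def K0 (μ : Nat.Partition 5) : Polynomial ℤ :=
  if μ.parts = ([3, 2] : List ℕ) then 4 else
  if μ.parts = ([3, 1, 1] : List ℕ) then 4 + 4 * X else
  if μ.parts = ([2, 2, 1] : List ℕ) then 4 + 8 * X + 4 * X ^ 2 else
  if μ.parts = ([2, 1, 1, 1] : List ℕ) then 8 * X + 12 * X ^ 2 + 8 * X ^ 3 + 4 * X ^ 4 else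
  if μ.parts = ([1, 1, 1, 1, 1] : List ℕ) then
    4 * X ^ 2 + 8 * X ^ 3 + 12 * X ^ 4 + 16 * X ^ 5 + 12 * X ^ 6 + 8 * X ^ 7 + 4 * X ^ 8 else 0

def p32 : Nat.Partition 5 := ⟨([3, 2] : List ℕ), by decide, by decide⟩
def p311 : Nat.Partition 5 := ⟨([3, 1, 1] : List ℕ), by decide, by decide⟩
def p221 : Nat.Partition 5 := ⟨([2, 2, 1] : List ℕ), by decide, by decide⟩
def p2111 : Nat.Partition 5 := ⟨([2, 1, 1, 1] : List ℕ), by decide, by decide⟩
def p11111 : Nat.Partition 5 := ⟨([1, 1, 1, 1, 1] : List ℕ), by decide, by decide⟩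

theorem mev_two_pow (e : ℕ) : mev fv (2 ^ e) = (MvPolynomial.C Polynomial.X) ^ e := by
  rw [mev_pow, mev_two]

theorem cc4 : (MvPolynomial.C (4 : Polynomial ℤ) : R 5) = 4 := map_ofNat _ 4
theorem cc8 : (MvPolynomial.C (8 : Polynomial ℤ) : R 5) = 8 := map_ofNat _ 8
theorem cc12 : (MvPolynomial.C (12 : Polynomial ℤ) : R 5) = 12 := map_ofNat _ 12
theorem cc16 : (MvPolynomial.C (16 : Polynomial ℤ) : R 5) = 16 := map_ofNat _ 16

theorem k_p32 : MvPolynomial.C (K0 p32) = ev fv k32 := by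
  have h : K0 p32 = 4 := if_pos rfl
  rw [h]
  unfold k32
  simp [mev_one, cc4]

theorem k_p311 : MvPolynomial.C (K0 p311) = ev fv k311 := by
  have h : K0 p311 = 4 + 4 * Polynomial.X := by
    unfold K0 p311
    dsimp only
    rw [if_neg (by decide), if_pos rfl]
  rw [h]
  unfold k311
  have e1 : mev fv 2 = (MvPolynomial.C Polynomial.X) ^ 1 := mev_two_pow 1
  simp [mev_one, e1, cc4]

theorem k_p221 : MvPolynomial.C (K0 p221) = ev fv k221 := by
  have h : K0 p221 = 4 + 8 * Polynomial.X + 4 * Polynomial.X ^ 2 := by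
    unfold K0 p221
    dsimp only
    rw [if_neg (by decide), if_neg (by decide), if_pos rfl]
  rw [h]
  unfold k221
  have e1 : mev fv 2 = (MvPolynomial.C Polynomial.X) ^ 1 := mev_two_pow 1
  have e2 : mev fv 4 = (MvPolynomial.C Polynomial.X) ^ 2 := mev_two_pow 2
  simp [mev_one, e1, e2, cc4, cc8]
  ring

theorem k_p2111 : MvPolynomial.C (K0 p2111) = ev fv k2111 := by
  have h : K0 p2111 = 8 * Polynomial.X + 12 * Polynomial.X ^ 2 + 8 * Polynomial.X ^ 3 +
      4 * Polynomial.X ^ 4 := by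
    unfold K0 p2111
    dsimp only
    rw [if_neg (by decide), if_neg (by decide), if_neg (by decide), if_pos rfl]
  rw [h]
  unfold k2111
  have e1 : mev fv 2 = (MvPolynomial.C Polynomial.X) ^ 1 := mev_two_pow 1
  have e2 : mev fv 4 = (MvPolynomial.C Polynomial.X) ^ 2 := mev_two_pow 2
  have e3 : mev fv 8 = (MvPolynomial.C Polynomial.X) ^ 3 := mev_two_pow 3
  have e4 : mev fv 16 = (MvPolynomial.C Polynomial.X) ^ 4 := mev_two_pow 4
  simp [e1, e2, e3, e4, cc4, cc8, cc12]
  ring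

theorem k_p11111 : MvPolynomial.C (K0 p11111) = ev fv k11111 := by
  have h : K0 p11111 = 4 * Polynomial.X ^ 2 + 8 * Polynomial.X ^ 3 + 12 * Polynomial.X ^ 4 +
      16 * Polynomial.X ^ 5 + 12 * Polynomial.X ^ 6 + 8 * Polynomial.X ^ 7 +
      4 * Polynomial.X ^ 8 := by
    unfold K0 p11111
    dsimp only
    rw [if_neg (by decide), if_neg (by decide), if_neg (by decide), if_neg (by decide), if_pos rfl]
  rw [h]
  unfold k11111
  have e2 : mev fv 4 = (MvPolynomial.C Polynomial.X) ^ 2 := mev_two_pow 2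
  have e3 : mev fv 8 = (MvPolynomial.C Polynomial.X) ^ 3 := mev_two_pow 3
  have e4 : mev fv 16 = (MvPolynomial.C Polynomial.X) ^ 4 := mev_two_pow 4
  have e5 : mev fv 32 = (MvPolynomial.C Polynomial.X) ^ 5 := mev_two_pow 5
  have e6 : mev fv 64 = (MvPolynomial.C Polynomial.X) ^ 6 := mev_two_pow 6
  have e7 : mev fv 128 = (MvPolynomial.C Polynomial.X) ^ 7 := mev_two_pow 7
  have e8 : mev fv 256 = (MvPolynomial.C Polynomial.X) ^ 8 := mev_two_pow 8
  simp [e2, e3, e4, e5, e6, e7, e8, cc4, cc8, cc12, cc16]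
  ring

theorem K0_zero (μ : Nat.Partition 5) (h : μ ∉ ({p32, p311, p221, p2111, p11111} :
    Finset (Nat.Partition 5))) : K0 μ = 0 := by
  simp only [mem_insert, mem_singleton, not_or] at h
  obtain ⟨h1, h2, h3, h4, h5⟩ := h
  unfold K0
  rw [if_neg (show ¬ μ.parts = ([3, 2] : List ℕ) from fun e => h1 (Nat.Partition.ext e)),
    if_neg (show ¬ μ.parts = ([3, 1, 1] : List ℕ) from fun e => h2 (Nat.Partition.ext e)),
    if_neg (show ¬ μ.parts = ([2, 2, 1] : List ℕ) from fun e => h3 (Nat.Partition.ext e)),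
    if_neg (show ¬ μ.parts = ([2, 1, 1, 1] : List ℕ) from fun e => h4 (Nat.Partition.ext e)),
    if_neg (show ¬ μ.parts = ([1, 1, 1, 1, 1] : List ℕ) from fun e => h5 (Nat.Partition.ext e))]

theorem sum_K0 : ∑ μ : Nat.Partition 5, MvPolynomial.C (K0 μ) * NR 5 μ = ev fv lhs := by
  have h1 : ∑ μ : Nat.Partition 5, MvPolynomial.C (K0 μ) * NR 5 μ =
      ∑ μ ∈ ({p32, p311, p221, p2111, p11111} : Finset (Nat.Partition 5)),
        MvPolynomial.C (K0 μ) * NR 5 μ := by
    symm
    refine sum_subset (subset_univ _) fun μ _ hμ => ?_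
    rw [K0_zero μ hμ, map_zero, zero_mul]
  rw [h1, sum_insert (by decide), sum_insert (by decide), sum_insert (by decide),
    sum_insert (by decide), sum_singleton, k_p32, k_p311, k_p221, k_p2111, k_p11111,
    ← s32 p32 rfl, ← s311 p311 rfl, ← s221 p221 rfl, ← s2111 p2111 rfl, ← s11111 p11111 rfl]
  unfold lhs
  rw [ev_sumPol]
  simp only [List.map_cons, List.map_nil, List.sum_cons, List.sum_nil, ev_mulPol]
  ring

theorem ev_rhs : ev fv rhs = ev fv qPol * VR 5 := by
  unfold rhs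
  rw [ev_gMul5]
  unfold VR
  refine congrArg (fun z => ev fv qPol * z) ?_
  refine prod_congr rfl fun i _ => prod_congr rfl fun j _ => ?_
  have h : ∀ k : Fin 5, toF [0, 0, 0, 0, 0] k = 0 := by decide
  rw [h, h]
  unfold gR
  simp

theorem sum_K0' : ∑ μ : Nat.Partition 5, MvPolynomial.C (K0 μ) * NR 5 μ =
    VR 5 * ev fv qPol :=
  sum_K0.trans ((congrArg (ev fv) lhs_eq_rhs).trans (ev_rhs.trans (mul_comm _ _)))

theorem K0_id : Q 5 [3, 2] = ∑ μ : Nat.Partition 5, coef 5 (K0 μ) * HL 5 μ := by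
  refine (sum_clear K0 _).2 ?_
  rw [sum_K0', Q_eq, map_mul]

theorem K0_spin : IsSpinKostka 5 [3, 2] K0 :=
  ⟨⟨by decide, by decide⟩, rfl, K0_id⟩

theorem not_pal : ¬ IsPalindromic (K0 p2111) := by
  rintro ⟨m, hm⟩
  have h : K0 p2111 = Polynomial.C 8 * Polynomial.X ^ 1 + Polynomial.C 12 * Polynomial.X ^ 2 +
      Polynomial.C 8 * Polynomial.X ^ 3 + Polynomial.C 4 * Polynomial.X ^ 4 := by
    unfold K0 p2111
    dsimp only
    rw [if_neg (by decide), if_neg (by decide), if_neg (by decide), if_pos rfl]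
    simp
  rw [h] at hm
  have c : ∀ (a k l : ℤ), (LaurentPolynomial.C a * LaurentPolynomial.T k :
      LaurentPolynomial ℤ).coeff l = if k = l then a else 0 := by
    intro a k l
    rw [← LaurentPolynomial.single_eq_C_mul_T, AddMonoidAlgebra.coeff_single,
      Finsupp.single_apply]
  have e : ∀ (a : ℤ) (k : ℕ), LaurentPolynomial.T m * LaurentPolynomial.invert
      (Polynomial.toLaurent (Polynomial.C a * Polynomial.X ^ k)) =
      LaurentPolynomial.C a * (LaurentPolynomial.T (m - k) : LaurentPolynomial ℤ) := by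
    intro a k
    rw [Polynomial.toLaurent_C_mul_X_pow, map_mul, LaurentPolynomial.invert_C,
      LaurentPolynomial.invert_T, sub_eq_add_neg, LaurentPolynomial.T_add]
    ring
  rw [map_add, map_add, map_add, map_add, map_add, map_add, mul_add, mul_add, mul_add,
    e, e, e, e, Polynomial.toLaurent_C_mul_X_pow, Polynomial.toLaurent_C_mul_X_pow,
    Polynomial.toLaurent_C_mul_X_pow, Polynomial.toLaurent_C_mul_X_pow] at hm
  have h4 := congrArg (fun f : LaurentPolynomial ℤ => f.coeff 4) hm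
  have h1 := congrArg (fun f : LaurentPolynomial ℤ => f.coeff 1) hm
  clear hm h e
  simp only [AddMonoidAlgebra.coeff_add, Finsupp.add_apply, c] at h4 h1
  have hm8 : m = 8 := by
    clear h1 c
    push_cast at h4
    split_ifs at h4 <;> omega
  subst hm8
  exact absurd h1 (by decide)

end Pool.Agent.U372.SK
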