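import Mathlib

/-! Sparse polynomials: lists of pairs (code, coefficient). A monomial is coded by a product of
primes; the code of a product is the product of the codes. -/

set_option autoImplicit false

namespace Pool.Agent.U372.SK

abbrev Pol := List (ℕ × ℤ)

section sem
variable {A : Type*} [CommRing A] (f : ℕ → A)

noncomputable def mev (k : ℕ) : A := if k = 0 then 0 else k.factorization.prod (fun p e => f p ^ e)

theorem mev_one : mev f 1 = 1 := by simp [mev]

theorem mev_mul (a b : ℕ) : mev f (a * b) = mev f a * mev f b := by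
  unfold mev
  by_cases ha : a = 0
  · simp [ha]
  by_cases hb : b = 0
  · simp [hb]
  rw [if_neg ha, if_neg hb, if_neg (mul_ne_zero ha hb), Nat.factorization_mul ha hb,
    Finsupp.prod_add_index']
  · intro p; simp
  · intro p e e'; rw [pow_add]

theorem mev_prime {p : ℕ} (hp : p.Prime) : mev f p = f p := by
  unfold mev
  rw [if_neg hp.ne_zero, hp.factorization]
  simp

theorem mev_pow (a e : ℕ) : mev f (a ^ e) = mev f a ^ e := by
  induction e with
  | zero => simp [mev_one]
  | succ e ih => rw [pow_succ, mev_mul, ih, pow_succ]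

noncomputable def ev (p : Pol) : A := (p.map (fun m => (m.2 : A) * mev f m.1)).sum

@[simp] theorem ev_nil : ev f [] = 0 := rfl
@[simp] theorem ev_cons (a : ℕ × ℤ) (p : Pol) : ev f (a :: p) = (a.2 : A) * mev f a.1 + ev f p := by
  simp [ev]

def mergeGo (a : ℕ × ℤ) (mp : Pol → Pol) : Pol → Pol
  | [] => a :: mp []
  | b :: q => bif Nat.blt a.1 b.1 then a :: mp (b :: q) else
      bif Nat.blt b.1 a.1 then b :: mergeGo a mp q else
        (if a.2 + b.2 = 0 then mp q else (a.1, a.2 + b.2) :: mp q)

def merge : Pol → Pol → Pol
  | [], q => q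
  | a :: p, q => mergeGo a (merge p) q

theorem ev_mergeGo (a : ℕ × ℤ) (mp : Pol → Pol) (e : A) (h : ∀ q, ev f (mp q) = e + ev f q) :
    ∀ q, ev f (mergeGo a mp q) = (a.2 : A) * mev f a.1 + e + ev f q
  | [] => by simp [mergeGo, h]
  | b :: q => by
    unfold mergeGo
    cases h1 : Nat.blt a.1 b.1
    · cases h2 : Nat.blt b.1 a.1
      · have h3 : a.1 = b.1 := by
          have e1 : ¬ a.1 < b.1 := by
            intro hh
            rw [← Nat.blt_eq] at hh
            rw [h1] at hh
            exact absurd hh (by decide)
          have e2 : ¬ b.1 < a.1 := by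
            intro hh
            rw [← Nat.blt_eq] at hh
            rw [h2] at hh
            exact absurd hh (by decide)
          omega
        simp only [cond_false]
        split_ifs with h4
        · rw [h, ev_cons, h3]
          have : (a.2 : A) + b.2 = 0 := by exact_mod_cast congrArg (Int.cast (R := A)) h4
          linear_combination (-(mev f b.1)) * this
        · rw [ev_cons, h, ev_cons, h3]
          push_cast
          ring
      · simp only [cond_false, cond_true]
        rw [ev_cons, ev_mergeGo a mp e h q, ev_cons]
        ring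
    · simp only [cond_true]
      rw [ev_cons, h, ev_cons]
      ring

theorem ev_merge : ∀ p q : Pol, ev f (merge p q) = ev f p + ev f q
  | [], q => by simp [merge]
  | a :: p, q => by
    rw [merge, ev_mergeGo f a (merge p) (ev f p) (ev_merge p), ev_cons]

def shift (k : ℕ) (c : ℤ) : Pol → Pol
  | [] => []
  | a :: p => (a.1 * k, a.2 * c) :: shift k c p

theorem ev_shift (k : ℕ) (c : ℤ) : ∀ p : Pol, ev f (shift k c p) = ev f p * ((c : A) * mev f k)
  | [] => by simp [shift]
  | a :: p => by
    rw [shift, ev_cons, ev_cons, ev_shift k c p, mev_mul]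
    push_cast
    ring

def mulPol (p : Pol) : Pol → Pol
  | [] => []
  | a :: q => merge (shift a.1 a.2 p) (mulPol p q)

theorem ev_mulPol (p : Pol) : ∀ q : Pol, ev f (mulPol p q) = ev f p * ev f q
  | [] => by simp [mulPol]
  | a :: q => by
    rw [mulPol, ev_merge, ev_shift, ev_mulPol p q, ev_cons]
    ring

def sumPol : List Pol → Pol
  | [] => []
  | p :: l => merge p (sumPol l)

theorem ev_sumPol : ∀ l : List Pol, ev f (sumPol l) = (l.map (ev f)).sum
  | [] => by simp [sumPol]
  | p :: l => by rw [sumPol, ev_merge, ev_sumPol l]; simp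

/-- multiplication by `k - l` (codes) -/
def mulBin (p : Pol) (k l : ℕ) : Pol := merge (shift k 1 p) (shift l (-1) p)

theorem ev_mulBin (p : Pol) (k l : ℕ) : ev f (mulBin p k l) = ev f p * (mev f k - mev f l) := by
  rw [mulBin, ev_merge, ev_shift, ev_shift]
  push_cast
  ring

end sem

end Pool.Agent.U372.SK
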