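import Pool.Agent.U372.SK.Clear
import Pool.Agent.U372.SK.Comp

set_option autoImplicit false

open Finset

namespace Pool.Agent.U372.SK

noncomputable def fv (p : ℕ) : R 5 :=
  if p = 2 then MvPolynomial.C Polynomial.X else if p = 3 then MvPolynomial.X 0 else
  if p = 5 then MvPolynomial.X 1 else if p = 7 then MvPolynomial.X 2 else
  if p = 11 then MvPolynomial.X 3 else MvPolynomial.X 4

theorem mev_two : mev fv 2 = MvPolynomial.C Polynomial.X := by
  rw [mev_prime fv Nat.prime_two]; simp [fv]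

theorem mev_pr (i : Fin 5) : mev fv (pr i) = MvPolynomial.X i := by
  fin_cases i
  · change mev fv 3 = _
    rw [mev_prime fv (by norm_num)]; rfl
  · change mev fv 5 = _
    rw [mev_prime fv (by norm_num)]; rfl
  · change mev fv 7 = _
    rw [mev_prime fv (by norm_num)]; rfl
  · change mev fv 11 = _
    rw [mev_prime fv (by norm_num)]; rfl
  · change mev fv 13 = _
    rw [mev_prime fv (by norm_num)]; rfl

theorem ev_gMul_cons (α : List ℕ) (p : Pol) (i j : Fin 5) (l : List (ℕ × ℕ)) :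
    ev fv (gMul α p (((i : ℕ), (j : ℕ)) :: l)) =
      ev fv (gMul α p l) * gR (α.getD i 0) (α.getD j 0) i j := by
  rw [gMul]
  dsimp only
  rw [ev_mulBin]
  unfold gR
  congr 2
  · split_ifs
    · rw [mev_mul, mev_two, mev_pr]
    · rw [mev_pr, one_mul]
  · split_ifs
    · rw [mev_mul, mev_two, mev_pr]
    · rw [mev_pr, one_mul]

theorem prod_pairs5 {A : Type*} [CommRing A] (g : Fin 5 → Fin 5 → A) :
    ∏ i : Fin 5, ∏ j ∈ Ioi i, g i j = g 3 4 * g 2 4 * g 2 3 * g 1 4 * g 1 3 * g 1 2 * g 0 4 * g 0 3 *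
      g 0 2 * g 0 1 := by
  have h0 : Ioi (0 : Fin 5) = {1, 2, 3, 4} := by decide
  have h1 : Ioi (1 : Fin 5) = {2, 3, 4} := by decide
  have h2 : Ioi (2 : Fin 5) = {3, 4} := by decide
  have h3 : Ioi (3 : Fin 5) = {4} := by decide
  have h4 : Ioi (4 : Fin 5) = ∅ := by decide
  rw [Fin.prod_univ_five, h0, h1, h2, h3, h4]
  rw [prod_insert (by decide), prod_insert (by decide), prod_insert (by decide), prod_singleton,
    prod_insert (by decide), prod_insert (by decide), prod_singleton,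
    prod_insert (by decide), prod_singleton, prod_singleton, prod_empty]
  ring

/-- the function of a list -/
def toF (α : List ℕ) : Fin 5 → ℕ := fun i => α.getD i 0

theorem ev_gMul5 (α : List ℕ) (p : Pol) : ev fv (gMul α p pairs5) =
    ev fv p * ∏ i : Fin 5, ∏ j ∈ Ioi i, gR (toF α i) (toF α j) i j := by
  rw [prod_pairs5]
  unfold pairs5
  rw [show ([(0, 1), (0, 2), (0, 3), (0, 4), (1, 2), (1, 3), (1, 4), (2, 3), (2, 4), (3, 4)] :
    List (ℕ × ℕ)) = [(((0 : Fin 5) : ℕ), ((1 : Fin 5) : ℕ)), (((0 : Fin 5) : ℕ), ((2 : Fin 5) : ℕ)),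
    (((0 : Fin 5) : ℕ), ((3 : Fin 5) : ℕ)), (((0 : Fin 5) : ℕ), ((4 : Fin 5) : ℕ)),
    (((1 : Fin 5) : ℕ), ((2 : Fin 5) : ℕ)), (((1 : Fin 5) : ℕ), ((3 : Fin 5) : ℕ)),
    (((1 : Fin 5) : ℕ), ((4 : Fin 5) : ℕ)), (((2 : Fin 5) : ℕ), ((3 : Fin 5) : ℕ)),
    (((2 : Fin 5) : ℕ), ((4 : Fin 5) : ℕ)), (((3 : Fin 5) : ℕ), ((4 : Fin 5) : ℕ))] from rfl]
  simp only [ev_gMul_cons]
  rw [gMul]
  unfold toF
  ring

theorem ev_monCode (a b c d e : ℕ) : mev fv (monCode 0 [a, b, c, d, e]) =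
    ∏ i : Fin 5, MvPolynomial.X i ^ toF [a, b, c, d, e] i := by
  unfold monCode monCode monCode monCode monCode monCode
  rw [Fin.prod_univ_five]
  simp only [mev_mul, mev_pow, mul_one]
  have h0 : mev fv (pr 0) = MvPolynomial.X 0 := mev_pr 0
  have h1 : mev fv (pr (0 + 1)) = MvPolynomial.X 1 := mev_pr 1
  have h2 : mev fv (pr (0 + 1 + 1)) = MvPolynomial.X 2 := mev_pr 2
  have h3 : mev fv (pr (0 + 1 + 1 + 1)) = MvPolynomial.X 3 := mev_pr 3
  have h4 : mev fv (pr (0 + 1 + 1 + 1 + 1)) = MvPolynomial.X 4 := mev_pr 4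
  rw [h0, h1, h2, h3, h4]
  unfold toF
  simp only [List.getD_cons_zero, Fin.val_zero]
  change _ = _ * MvPolynomial.X 1 ^ b * MvPolynomial.X 2 ^ c * MvPolynomial.X 3 ^ d *
    MvPolynomial.X 4 ^ e
  ring

theorem ev_gPol (a b c d e : ℕ) : ev fv (gPol [a, b, c, d, e]) = GR 5 (toF [a, b, c, d, e]) := by
  unfold gPol GR
  rw [ev_gMul5, ev_cons, ev_nil, ev_monCode]
  simp

theorem ev_sPol (l : List ℕ) (h5 : ∀ α ∈ arrs l, ∃ a b c d e, α = [a, b, c, d, e]) :
    ev fv (sPol l) = (((arrs l).map toF).map (GR 5)).sum := by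
  unfold sPol
  rw [ev_sumPol, List.map_map, List.map_map]
  refine congrArg List.sum (List.map_congr_left fun α hα => ?_)
  obtain ⟨a, b, c, d, e, h⟩ := h5 α hα
  rw [Function.comp_apply, Function.comp_apply, h]
  exact ev_gPol a b c d e

theorem NR_eq (l : List ℕ) (μ : Nat.Partition 5) (hμ : μ.parts = (l : Multiset ℕ)) :
    NR 5 μ = ∑ α ∈ (Finset.Nat.antidiagonalTuple 5 5).filter
      (fun α => ((Finset.univ : Finset (Fin 5)).val.map α).filter (fun k => k ≠ 0) =
        (l : Multiset ℕ)), GR 5 α := by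
  unfold NR arrangements
  refine Finset.sum_congr ?_ fun _ _ => rfl
  ext α
  rw [mem_filter, mem_filter, hμ]

theorem arr_eq (l : List ℕ) (μ : Nat.Partition 5) (hμ : μ.parts = (l : Multiset ℕ))
    (h : (Finset.Nat.antidiagonalTuple 5 5).filter
      (fun α => ((Finset.univ : Finset (Fin 5)).val.map α).filter (fun k => k ≠ 0) =
        (l : Multiset ℕ)) = ((arrs l).map toF).toFinset)
    (hn : ((arrs l).map toF).Nodup) (h5 : ∀ α ∈ arrs l, ∃ a b c d e, α = [a, b, c, d, e]) :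
    ev fv (sPol l) = NR 5 μ := by
  rw [NR_eq l μ hμ, ev_sPol l h5, h, List.sum_toFinset _ hn]

theorem length_words : ∀ (n m : ℕ), ∀ α ∈ words n m, α.length = n
  | 0, m => by
    intro α hα
    unfold words at hα
    split_ifs at hα
    · simp at hα; simp [hα]
    · simp at hα
  | n + 1, m => by
    intro α hα
    unfold words at hα
    simp only [List.mem_flatMap, List.mem_map] at hα
    obtain ⟨a, _, l, hl, rfl⟩ := hα
    simp [length_words n _ l hl]

theorem form_of_length (α : List ℕ) (h : α.length = 5) : ∃ a b c d e, α = [a, b, c, d, e] := by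
  rcases α with _ | ⟨a, _ | ⟨b, _ | ⟨c, _ | ⟨d, _ | ⟨e, _ | ⟨g, l⟩⟩⟩⟩⟩⟩
  · simp at h
  · simp at h
  · simp at h
  · simp at h
  · simp at h
  · exact ⟨a, b, c, d, e, rfl⟩
  · simp at h

theorem arrs_form (l : List ℕ) : ∀ α ∈ arrs l, ∃ a b c d e, α = [a, b, c, d, e] := by
  intro α hα
  unfold arrs at hα
  rw [List.mem_filter] at hα
  exact form_of_length α (length_words 5 5 α hα.1)

set_option maxRecDepth 100000 in
theorem s32 (μ : Nat.Partition 5) (hμ : μ.parts = ([3, 2] : List ℕ)) :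
    ev fv (sPol [3, 2]) = NR 5 μ :=
  arr_eq _ μ hμ (by decide +kernel) (by decide +kernel) (arrs_form _)

set_option maxRecDepth 100000 in
theorem s311 (μ : Nat.Partition 5) (hμ : μ.parts = ([3, 1, 1] : List ℕ)) :
    ev fv (sPol [3, 1, 1]) = NR 5 μ :=
  arr_eq _ μ hμ (by decide +kernel) (by decide +kernel) (arrs_form _)

set_option maxRecDepth 100000 in
theorem s221 (μ : Nat.Partition 5) (hμ : μ.parts = ([2, 2, 1] : List ℕ)) :
    ev fv (sPol [2, 2, 1]) = NR 5 μ :=
  arr_eq _ μ hμ (by decide +kernel) (by decide +kernel) (arrs_form _)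

set_option maxRecDepth 100000 in
theorem s2111 (μ : Nat.Partition 5) (hμ : μ.parts = ([2, 1, 1, 1] : List ℕ)) :
    ev fv (sPol [2, 1, 1, 1]) = NR 5 μ :=
  arr_eq _ μ hμ (by decide +kernel) (by decide +kernel) (arrs_form _)

set_option maxRecDepth 100000 in
theorem s11111 (μ : Nat.Partition 5) (hμ : μ.parts = ([1, 1, 1, 1, 1] : List ℕ)) :
    ev fv (sPol [1, 1, 1, 1, 1]) = NR 5 μ :=
  arr_eq _ μ hμ (by decide +kernel) (by decide +kernel) (arrs_form _)

end Pool.Agent.U372.SK
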