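import Pool.Agent.U372.SK.Sem
import Pool.Agent.U372.SK.Chk

set_option autoImplicit false

open Finset

namespace Pool.Agent.U372.SK

abbrev L5 := Fin 5 × Bool

/-- the letter with a given position -/
def dec (k : ℕ) : L5 := (⟨(k / 2) % 5, Nat.mod_lt _ (by decide)⟩, decide (k % 2 = 1))

theorem sum_letters {A : Type*} [AddCommMonoid A] (f : L5 → A) :
    ∑ a, f a = ((List.range 10).map fun k => f (dec k)).sum := by
  have h : List.range 10 = [0, 1, 2, 3, 4, 5, 6, 7, 8, 9] := rfl
  rw [h, Fintype.sum_prod_type, Fin.sum_univ_five]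
  simp only [Fintype.sum_bool, List.map_cons, List.map_nil, List.sum_cons, List.sum_nil]
  have e0 : dec 0 = (0, false) := rfl
  have e1 : dec 1 = (0, true) := rfl
  have e2 : dec 2 = (1, false) := rfl
  have e3 : dec 3 = (1, true) := rfl
  have e4 : dec 4 = (2, false) := rfl
  have e5 : dec 5 = (2, true) := rfl
  have e6 : dec 6 = (3, false) := rfl
  have e7 : dec 7 = (3, true) := rfl
  have e8 : dec 8 = (4, false) := rfl
  have e9 : dec 9 = (4, true) := rfl
  rw [e0, e1, e2, e3, e4, e5, e6, e7, e8, e9]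
  abel

theorem pos_dec {k : ℕ} (hk : k < 10) : pos (dec k) = k := by
  unfold pos dec
  dsimp only
  by_cases h : k % 2 = 1
  · rw [if_pos (by simpa using h)]
    omega
  · rw [if_neg (by simpa using h)]
    omega

theorem dec_fst {k : ℕ} (hk : k < 10) : ((dec k).1 : ℕ) = k / 2 := by
  unfold dec
  dsimp only
  omega

theorem pos_inj {n : ℕ} {a b : Fin n × Bool} (h : pos a = pos b) : a = b := by
  obtain ⟨a1, a2⟩ := a
  obtain ⟨b1, b2⟩ := b
  unfold pos at h
  dsimp only at h
  cases a2 <;> cases b2 <;> simp at h <;> first | (apply Prod.ext; · apply Fin.ext; simp; omega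
                                                   · rfl) | omega

theorem snd_true {n : ℕ} (a : Fin n × Bool) : a.2 = true ↔ pos a % 2 = 1 := by
  obtain ⟨a1, a2⟩ := a
  unfold pos
  dsimp only
  cases a2
  · simp
  · simp

theorem snd_false {n : ℕ} (a : Fin n × Bool) : a.2 = false ↔ pos a % 2 = 0 := by
  obtain ⟨a1, a2⟩ := a
  unfold pos
  dsimp only
  cases a2
  · simp
  · simp

theorem row_cond {n : ℕ} (a b : Fin n × Bool) :
    (pos a ≤ pos b ∧ (a = b → a.2 = true)) ↔ okRow (pos a) (pos b) = true := by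
  unfold okRow
  simp only [Bool.or_eq_true, Bool.and_eq_true, decide_eq_true_eq]
  rw [snd_true]
  constructor
  · rintro ⟨h1, h2⟩
    rcases Nat.lt_or_ge (pos a) (pos b) with h | h
    · exact Or.inl h
    · have h3 : pos a = pos b := by omega
      exact Or.inr ⟨h3, h2 (pos_inj h3)⟩
  · rintro (h | ⟨h1, h2⟩)
    · exact ⟨h.le, fun h3 => by rw [h3] at h; omega⟩
    · exact ⟨h1.le, fun _ => h2⟩

theorem col_cond {n : ℕ} (a b : Fin n × Bool) :
    (pos a ≤ pos b ∧ (a = b → a.2 = false)) ↔ okCol (pos a) (pos b) = true := by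
  unfold okCol
  simp only [Bool.or_eq_true, Bool.and_eq_true, decide_eq_true_eq]
  rw [snd_false]
  constructor
  · rintro ⟨h1, h2⟩
    rcases Nat.lt_or_ge (pos a) (pos b) with h | h
    · exact Or.inl h
    · have h3 : pos a = pos b := by omega
      exact Or.inr ⟨h3, h2 (pos_inj h3)⟩
  · rintro (h | ⟨h1, h2⟩)
    · exact ⟨h.le, fun h3 => by rw [h3] at h; omega⟩
    · exact ⟨h1.le, fun _ => h2⟩

theorem okRow_trans {a b c : ℕ} (h1 : okRow a b = true) (h2 : okRow b c = true) :
    okRow a c = true := by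
  unfold okRow at *
  simp only [Bool.or_eq_true, Bool.and_eq_true, decide_eq_true_eq] at *
  omega

def c0 : Cell [3, 2] := ⟨⟨0, by decide⟩, ⟨0, by decide⟩⟩
def c1 : Cell [3, 2] := ⟨⟨0, by decide⟩, ⟨1, by decide⟩⟩
def c2 : Cell [3, 2] := ⟨⟨0, by decide⟩, ⟨2, by decide⟩⟩
def c3 : Cell [3, 2] := ⟨⟨1, by decide⟩, ⟨0, by decide⟩⟩
def c4 : Cell [3, 2] := ⟨⟨1, by decide⟩, ⟨1, by decide⟩⟩

def cellOf : Fin 5 → Cell [3, 2] := ![c0, c1, c2, c3, c4]

theorem cellOf_bij : Function.Bijective cellOf := by decide

theorem shifted_iff (T : Cell [3, 2] → L5) : IsMarkedShifted T ↔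
    (okRow (pos (T c0)) (pos (T c1)) = true ∧ okRow (pos (T c1)) (pos (T c2)) = true ∧
      okCol (pos (T c1)) (pos (T c3)) = true ∧
      (okRow (pos (T c3)) (pos (T c4)) = true ∧ okCol (pos (T c2)) (pos (T c4)) = true)) := by
  constructor
  · intro h
    exact ⟨(row_cond _ _).1 (h.rows c0 c1 rfl (by decide)), (row_cond _ _).1 (h.rows c1 c2 rfl (by decide)),
      (col_cond _ _).1 (h.cols c1 c3 rfl (by decide)), (row_cond _ _).1 (h.rows c3 c4 rfl (by decide)),
      (col_cond _ _).1 (h.cols c2 c4 rfl (by decide))⟩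
  · rintro ⟨h01, h12, h13, h34, h24⟩
    have h02 := okRow_trans h01 h12
    constructor
    · intro c d
      obtain ⟨i, rfl⟩ := cellOf_bij.2 c
      obtain ⟨j, rfl⟩ := cellOf_bij.2 d
      fin_cases i <;> fin_cases j <;> intro hr hc <;>
        first
        | exact absurd hr (by decide)
        | exact absurd hc (by decide)
        | exact (row_cond _ _).2 h01
        | exact (row_cond _ _).2 h12
        | exact (row_cond _ _).2 h02
        | exact (row_cond _ _).2 h34
    · intro c d
      obtain ⟨i, rfl⟩ := cellOf_bij.2 c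
      obtain ⟨j, rfl⟩ := cellOf_bij.2 d
      fin_cases i <;> fin_cases j <;> intro hr hc <;>
        first
        | exact absurd hr (by decide)
        | exact absurd hc (by decide)
        | exact (col_cond _ _).2 h13
        | exact (col_cond _ _).2 h24

/-- evaluation of a function at the five cells -/
noncomputable def cellsEquiv : (Cell [3, 2] → L5) ≃ L5 × L5 × L5 × L5 × L5 where
  toFun T := (T c0, T c1, T c2, T c3, T c4)
  invFun p := fun c => ![p.1, p.2.1, p.2.2.1, p.2.2.2.1, p.2.2.2.2]
    ((Equiv.ofBijective cellOf cellOf_bij).symm c)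
  left_inv T := by
    funext c
    obtain ⟨i, rfl⟩ := cellOf_bij.2 c
    have h : (Equiv.ofBijective cellOf cellOf_bij).symm (cellOf i) = i :=
      (Equiv.ofBijective cellOf cellOf_bij).symm_apply_apply i
    beta_reduce
    rw [h]
    fin_cases i <;> rfl
  right_inv p := by
    have h : ∀ i, (Equiv.ofBijective cellOf cellOf_bij).symm (cellOf i) = i :=
      fun i => (Equiv.ofBijective cellOf cellOf_bij).symm_apply_apply i
    have h0 := h 0
    have h1 := h 1
    have h2 := h 2
    have h3 := h 3
    have h4 := h 4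
    change (Equiv.ofBijective cellOf cellOf_bij).symm c0 = 0 at h0
    change (Equiv.ofBijective cellOf cellOf_bij).symm c1 = 1 at h1
    change (Equiv.ofBijective cellOf cellOf_bij).symm c2 = 2 at h2
    change (Equiv.ofBijective cellOf cellOf_bij).symm c3 = 3 at h3
    change (Equiv.ofBijective cellOf cellOf_bij).symm c4 = 4 at h4
    beta_reduce
    rw [h0, h1, h2, h3, h4]
    rfl

theorem sum_cells {A : Type*} [AddCommMonoid A] (g : L5 → L5 → L5 → L5 → L5 → A) :
    ∑ T : Cell [3, 2] → L5, g (T c0) (T c1) (T c2) (T c3) (T c4) =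
      ∑ a, ∑ b, ∑ c, ∑ d, ∑ e, g a b c d e := by
  rw [Fintype.sum_equiv cellsEquiv (fun T => g (T c0) (T c1) (T c2) (T c3) (T c4))
    (fun p => g p.1 p.2.1 p.2.2.1 p.2.2.2.1 p.2.2.2.2) (fun T => rfl)]
  simp only [Fintype.sum_prod_type]

theorem prod_cells {A : Type*} [CommMonoid A] (g : Cell [3, 2] → A) :
    ∏ c, g c = g c0 * g c1 * g c2 * g c3 * g c4 := by
  rw [← Fintype.prod_equiv (Equiv.ofBijective cellOf cellOf_bij) (fun i => g (cellOf i)) g
    (fun i => rfl), Fin.prod_univ_five]
  rfl

/-- the variable of a letter position -/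
noncomputable def xr (k : ℕ) : R 5 := mev fv (pr (k / 2))

theorem xr_dec {k : ℕ} (hk : k < 10) : xr k = MvPolynomial.X (dec k).1 := by
  unfold xr
  rw [← dec_fst hk, mev_pr]

theorem sum_map_flatMap {A B C : Type*} [AddMonoid C] (l : List A) (g : A → List B) (h : B → C) :
    ((l.flatMap g).map h).sum = (l.map fun a => ((g a).map h).sum).sum := by
  induction l with
  | nil => rfl
  | cons a l ih => rw [List.flatMap_cons, List.map_append, List.sum_append, ih, List.map_cons,
      List.sum_cons]

theorem sum_map_ite {B C : Type*} [AddMonoid C] (p : Bool) (l : List B) (h : B → C) :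
    ((if p = true then l else []).map h).sum = if p = true then (l.map h).sum else 0 := by
  split_ifs <;> simp

theorem ev_qPol : ev fv qPol = ∑ a : L5, ∑ b : L5, ∑ c : L5, ∑ d : L5, ∑ e : L5,
    if (okRow (pos a) (pos b) = true ∧ okRow (pos b) (pos c) = true ∧
      okCol (pos b) (pos d) = true ∧
      (okRow (pos d) (pos e) = true ∧ okCol (pos c) (pos e) = true)) then
      (MvPolynomial.X a.1 * MvPolynomial.X b.1 * MvPolynomial.X c.1 * MvPolynomial.X d.1 *
        MvPolynomial.X e.1 : R 5) else 0 := by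
  have h1 : ev fv qPol = (tabs.map fun T => mev fv ((T.map fun a => pr (a / 2)).prod)).sum := by
    unfold qPol
    rw [ev_sumPol, List.map_map]
    refine congrArg List.sum (List.map_congr_left fun T _ => ?_)
    rw [Function.comp_apply, ev_cons, ev_nil]
    simp
  rw [h1]
  unfold tabs
  simp only [sum_map_flatMap, sum_map_ite]
  rw [sum_letters]
  refine congrArg List.sum (List.map_congr_left fun a ha => ?_)
  rw [List.mem_range] at ha
  rw [sum_letters]
  refine congrArg List.sum (List.map_congr_left fun b hb => ?_)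
  rw [List.mem_range] at hb
  rw [pos_dec ha, pos_dec hb]
  by_cases hab : okRow a b = true
  swap
  · rw [if_neg hab]
    symm
    refine sum_eq_zero fun c _ => sum_eq_zero fun d _ => sum_eq_zero fun e _ => ?_
    rw [if_neg (fun h => hab h.1)]
  rw [if_pos hab, sum_letters]
  refine congrArg List.sum (List.map_congr_left fun c hc => ?_)
  rw [List.mem_range] at hc
  rw [pos_dec hc]
  by_cases hbc : okRow b c = true
  swap
  · rw [if_neg hbc]
    symm
    refine sum_eq_zero fun d _ => sum_eq_zero fun e _ => ?_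
    rw [if_neg (fun h => hbc h.2.1)]
  rw [if_pos hbc, sum_letters]
  refine congrArg List.sum (List.map_congr_left fun d hd => ?_)
  rw [List.mem_range] at hd
  rw [pos_dec hd]
  by_cases hbd : okCol b d = true
  swap
  · rw [if_neg hbd]
    symm
    refine sum_eq_zero fun e _ => ?_
    rw [if_neg (fun h => hbd h.2.2.1)]
  rw [if_pos hbd, sum_letters]
  refine congrArg List.sum (List.map_congr_left fun e he => ?_)
  rw [List.mem_range] at he
  rw [pos_dec he]
  by_cases hde : (okRow d e && okCol c e) = true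
  · rw [if_pos hde]
    rw [Bool.and_eq_true] at hde
    rw [if_pos ⟨hab, hbc, hbd, hde⟩]
    simp only [List.map_cons, List.map_nil, List.prod_cons, List.prod_nil, List.sum_cons,
      List.sum_nil, mev_mul, mev_one]
    have := xr_dec ha
    rw [← xr_dec ha, ← xr_dec hb, ← xr_dec hc, ← xr_dec hd, ← xr_dec he]
    unfold xr
    ring
  · rw [if_neg hde]
    rw [Bool.and_eq_true] at hde
    rw [if_neg (fun h => hde h.2.2.2)]

theorem Q_eq : Q 5 [3, 2] = algebraMap (R 5) (F 5) (ev fv qPol) := by
  classical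
  unfold Q
  rw [sum_filter, ev_qPol]
  simp only [map_sum]
  rw [← sum_cells (fun a b c d e => algebraMap (R 5) (F 5) (
    if (okRow (pos a) (pos b) = true ∧ okRow (pos b) (pos c) = true ∧
      okCol (pos b) (pos d) = true ∧
      (okRow (pos d) (pos e) = true ∧ okCol (pos c) (pos e) = true)) then
      (MvPolynomial.X a.1 * MvPolynomial.X b.1 * MvPolynomial.X c.1 * MvPolynomial.X d.1 *
        MvPolynomial.X e.1 : R 5) else 0))]
  refine sum_congr rfl fun T _ => ?_
  by_cases h : IsMarkedShifted T
  · rw [if_pos h, if_pos ((shifted_iff T).1 h), prod_cells]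
    simp only [map_mul]
    rfl
  · rw [if_neg h, if_neg (fun h' => h ((shifted_iff T).2 h')), map_zero]

end Pool.Agent.U372.SK
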